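import Mathlib
import Pool.Agent.Q213.Bes

open Finset Pool.Agent.Q213.Bes

namespace Pool.Agent.Results.MP_f41da7_an.ThirdDerivative

/-- The even entire function `G_{ν,n}` with `J_ν^{(n)}(z) = z^{ν-n} G_{ν,n}(z)`, obtained by
differentiating the series `∑ (-1)^m / (m! Γ(ν+m+1)) (z/2)^{ν+2m}` termwise `n` times. -/
noncomputable def G (ν : ℝ) (n : ℕ) (z : ℂ) : ℂ :=
  ∑' m : ℕ, (((-1) ^ m * (∏ j ∈ range n, (ν + 2 * m - j)) /
    (m.factorial * Real.Gamma (ν + m + 1) * (2 : ℝ) ^ (ν + 2 * m)) : ℝ) : ℂ) * z ^ (2 * m)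

/-- The number of zeros of `f` in `S`, counted with multiplicity: the zero `z` contributes the pairs
`(z, k)` with `k` below the order of vanishing of `f` at `z`. -/
noncomputable def zeroCount (f : ℂ → ℂ) (S : Set ℂ) : ℕ∞ :=
  {p : ℂ × ℕ | p.1 ∈ S ∧ (p.2 : ℕ∞) < analyticOrderAt f p.1}.encard

noncomputable def κ : ℝ := (2 : ℝ) ^ (1 / 10 : ℝ) * (Real.Gamma (9 / 10))⁻¹

lemma κ_pos : 0 < κ := mul_pos (by positivity) (inv_pos.2 gam_pos)

lemma G_eq (z : ℂ) : G (-1 / 10) 3 z = (κ : ℂ) * Hf a3 (z ^ 2 / 4) := by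
  rw [G, Hf, ← tsum_mul_left]
  refine tsum_congr (fun m => ?_)
  rw [gam, pow_mul, Finset.prod_range_succ, Finset.prod_range_succ, Finset.prod_range_succ,
    Finset.prod_range_zero, a3, a2_eq]
  have h1 := (rp_pos c0_pos m).ne'
  have h2 := gam_pos.ne'
  have h3 : (m.factorial : ℝ) ≠ 0 := by positivity
  have h4 : (-(z ^ 2 / 4)) ^ m = (((-1) ^ m * (4 ^ m)⁻¹ : ℝ) : ℂ) * (z ^ 2) ^ m := by
    rw [neg_pow, div_pow]
    push_cast
    ring
  rw [h4]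
  have h6 : (2 : ℝ) ^ (-1 / 10 + 2 * (m : ℝ)) = ((2 : ℝ) ^ (1 / 10 : ℝ))⁻¹ * 4 ^ m := by
    rw [Real.rpow_add two_pos, Real.rpow_mul two_pos.le, Real.rpow_natCast, neg_div,
      Real.rpow_neg two_pos.le]
    norm_num
  have h7 : ((2 : ℝ) ^ (1 / 10 : ℝ)) ≠ 0 := by positivity
  have h8 : (4 : ℝ) ^ m ≠ 0 := by positivity
  have h5 : ((-1) ^ m * (1 * (-1 / 10 + 2 * (m : ℝ) - (0 : ℕ)) * (-1 / 10 + 2 * (m : ℝ) - (1 : ℕ)) *
      (-1 / 10 + 2 * (m : ℝ) - (2 : ℕ))) /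
      ((m.factorial : ℝ) * (rp c0 m * Real.Gamma (9 / 10)) * (2 : ℝ) ^ (-1 / 10 + 2 * (m : ℝ)))) =
      κ * ((-21 / 10 + 2 * (m : ℝ)) * ((2 * (m : ℝ) - 11 / 10) * (2 * m - 1 / 10) / rp c0 m) / (m.factorial : ℝ)) *
        ((-1) ^ m * (4 ^ m)⁻¹) := by
    rw [h6, κ]
    push_cast
    field_simp
    ring
  rw [h5]
  push_cast
  ring

lemma G_diff : Differentiable ℂ (G (-1 / 10) 3) := by
  have h : G (-1 / 10) 3 = fun z => (κ : ℂ) * Hf a3 (z ^ 2 / 4) := by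
    funext z; exact G_eq z
  rw [h]
  have h2 : Differentiable ℂ (Hf a3) := Hf_diff a3_le (by norm_num)
  have h3 : Differentiable ℂ (fun z : ℂ => Hf a3 (z ^ 2 / 4)) :=
    h2.comp (by fun_prop : Differentiable ℂ (fun z : ℂ => z ^ 2 / 4))
  exact h3.const_mul _

lemma G_zero {z : ℂ} (h : G (-1 / 10) 3 z = 0) : z.re = 0 ∨ z.im = 0 := by
  rw [G_eq, mul_eq_zero] at h
  have h2 : (κ : ℂ) ≠ 0 := by
    exact_mod_cast κ_pos.ne'
  have h3 := h.resolve_left h2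
  have h4 := Hf3_real h3
  have h5 : (z ^ 2 / 4).im = z.re * z.im / 2 := by
    have : z ^ 2 / 4 = ((1 / 4 : ℝ) : ℂ) * (z * z) := by push_cast; ring
    rw [this, Complex.im_ofReal_mul, Complex.mul_im]
    ring
  rw [h5] at h4
  have : z.re * z.im = 0 := by linarith
  exact mul_eq_zero.1 this

/-- Every zero of the third derivative of the Bessel function `J_{-1/10}` is real or purely
imaginary, although `-1/10` lies in the interval `(n - 2 s - 2, n - 2 s - 1)` for `n = 3`, `s = 1`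
(where six nonreal zeros, two of them purely imaginary, are predicted); hence the answer to Q1 is
negative. -/
theorem result :
    Differentiable ℂ (G (-1 / 10) 3) ∧
    (∀ z : ℂ, G (-1 / 10) 3 z = 0 → z.re = 0 ∨ z.im = 0) ∧
    zeroCount (G (-1 / 10) 3) {z | z.im ≠ 0} =
      zeroCount (G (-1 / 10) 3) {z | z.re = 0 ∧ z.im ≠ 0} ∧
    ¬ (∀ (n s : ℕ) (ν : ℝ), (n : ℝ) - 2 * s - 2 < ν → ν < (n : ℝ) - 2 * s - 1 →
        zeroCount (G ν n) {z | z.im ≠ 0} = 4 * s + 2 ∧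
          zeroCount (G ν n) {z | z.re = 0 ∧ z.im ≠ 0} = 2) := by
  have h0 : zeroCount (G (-1 / 10) 3) {z | z.im ≠ 0} =
      zeroCount (G (-1 / 10) 3) {z | z.re = 0 ∧ z.im ≠ 0} := by
    rw [zeroCount, zeroCount]
    refine congrArg Set.encard (count_eq (fun z hz => ?_))
    rcases G_zero hz with h | h
    · simp [h]
    · simp [h]
  refine ⟨G_diff, fun z => G_zero, h0, ?_⟩
  intro H
  obtain ⟨h1, h2⟩ := H 3 1 (-1 / 10) (by norm_num) (by norm_num)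
  rw [h0, h2] at h1
  norm_num at h1

end Pool.Agent.Results.MP_f41da7_an.ThirdDerivative
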